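import Pool.Agent.W474.Ver.Defs

/-! # Betti tables of the modules `⊕ H⁰(ℙ², 𝒪(b + m d))` and Boij-Söderberg decompositions

`Poly 2` is the ring `ℂ[x₀, x₁, x₂]`, `Sec 2 e` is `H⁰(ℙ², 𝒪(e))`, the space of the forms of degree `e`,
`h0 2 d` is its dimension, and `kosz 2 d` is the Koszul differential of the monomial basis of
`H⁰(ℙ², 𝒪(d))` (`Pool.Agent.W474.Ver.Defs`).
-/

set_option autoImplicit false

namespace Pool.Agent.N92.BS

open Finset Module
open Pool.Agent.W474.Ver (Poly Sec h0 kosz)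

/-- The homogeneous part of degree `m` of the module `M = ⊕_{m ≥ 0} H⁰(ℙ², 𝒪(b + m d))`. -/
noncomputable def secM (b : ℤ) (d : ℕ) (m : ℤ) : Submodule ℂ (Poly 2) :=
  if 0 ≤ m then Sec 2 (b + m * d) else ⊥

/-- `Λ^p S₁ ⊗ M_m`, where `S₁ = H⁰(ℙ², 𝒪(d))`: the functions on the sets `F` of indices of the monomial
basis of `S₁` with values in `M_m` which vanish unless `F` has `p` elements. -/
noncomputable def chM (b : ℤ) (d p : ℕ) (m : ℤ) : Submodule ℂ (Finset (Fin (h0 2 d)) → Poly 2) where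
  carrier := {f | (∀ F, f F ∈ secM b d m) ∧ ∀ F, F.card ≠ p → f F = 0}
  add_mem' := by
    rintro f g ⟨hf, hf'⟩ ⟨hg, hg'⟩
    refine ⟨fun F => Submodule.add_mem _ (hf F) (hg F), fun F hF => ?_⟩
    rw [Pi.add_apply, hf' F hF, hg' F hF, add_zero]
  zero_mem' := ⟨fun F => Submodule.zero_mem _, fun F _ => rfl⟩
  smul_mem' := by
    rintro c f ⟨hf, hf'⟩
    refine ⟨fun F => Submodule.smul_mem _ c (hf F), fun F hF => ?_⟩
    rw [Pi.smul_apply, hf' F hF, smul_zero]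

/-- The dimension of `A / (A ∩ B)`. -/
noncomputable def dimQ {V : Type} [AddCommGroup V] [Module ℂ V] (A B : Submodule ℂ V) : ℕ :=
  finrank ℂ (A ⧸ B.submoduleOf A)

/-- The graded Betti number `β_{i,j}(M) = dim Tor_i(M, ℂ)_j`, `M = ⊕_{m ≥ 0} H⁰(ℙ², 𝒪(b + m d))`: the
dimension of the homology of the Koszul complex
`Λ^(i+1) S₁ ⊗ M_(j-i-1) → Λ^i S₁ ⊗ M_(j-i) → Λ^(i-1) S₁ ⊗ M_(j-i+1)`. -/
noncomputable def betti (b : ℤ) (d i : ℕ) (j : ℤ) : ℕ :=
  dimQ (chM b d i (j - i) ⊓ LinearMap.ker (kosz 2 d))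
    ((chM b d (i + 1) (j - i - 1)).map (kosz 2 d))

/-- A degree sequence `(d₀ < d₁ < ... < d_r)`, written as a list. -/
def IsDegSeq (l : List ℤ) : Prop :=
  0 < l.length ∧ ∀ i j, i < j → j < l.length → l.getD i 0 < l.getD j 0

/-- The entry `β_{i,j}` of the pure diagram of the degree sequence `l`: for `j = d_i` it is the product
of the numbers `1 / |d_k - d_i|`, `k ≠ i`, otherwise it is `0`. -/
noncomputable def pureD (l : List ℤ) (i : ℕ) (j : ℤ) : ℚ :=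
  if i < l.length ∧ l.getD i 0 = j then
    ∏ k ∈ range l.length, (if k = i then 1 else 1 / |((l.getD k 0 - l.getD i 0 : ℤ) : ℚ)|)
  else 0

/-- The order of the degree sequences: `l ≤ l'` if `l` is at least as long as `l'` and `d_i ≤ d'_i` for all
`i` for which both are defined. -/
def LeD (l l' : List ℤ) : Prop :=
  l'.length ≤ l.length ∧ ∀ i < l'.length, l.getD i 0 ≤ l'.getD i 0

/-- `β = ∑ a_t π(D_t)` with positive rational numbers `a_t` and a chain `D_1 < D_2 < ... < D_s` of degree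
sequences: the numbers `a_1, ..., a_s` are the Boij-Söderberg coefficients of `β`, in chain order. -/
structure IsBS (β : ℕ → ℤ → ℕ) (s : ℕ) (D : Fin s → List ℤ) (a : Fin s → ℚ) : Prop where
  deg : ∀ t, IsDegSeq (D t)
  chain : ∀ t t', t < t' → LeD (D t) (D t') ∧ D t ≠ D t'
  pos : ∀ t, 0 < a t
  sum : ∀ i j, (β i j : ℚ) = ∑ t, a t * pureD (D t) i j

/-- `a_1 ≤ ... ≤ a_t ≥ a_(t+1) ≥ ... ≥ a_s` for some `t`. -/
def Unimodal {s : ℕ} (a : Fin s → ℚ) : Prop :=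
  ∃ t : ℕ, ∀ i j : Fin s, i ≤ j → ((j : ℕ) ≤ t → a i ≤ a j) ∧ (t ≤ (i : ℕ) → a j ≤ a i)

end Pool.Agent.N92.BS
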