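import Pool.Agent.N92.BS.Kpq
import Pool.Agent.N92.BS.Defs

/-! # The Betti table for `b = d = 3` -/

set_option autoImplicit false

namespace Pool.Agent.N92.BS

open MvPolynomial Finset Module
open Pool.Agent.W474.Ver

theorem chM_neg (b : ℤ) (d p : ℕ) (m : ℤ) (hm : m < 0) : chM b d p m = ⊥ := by
  rw [eq_bot_iff]
  rintro f ⟨h1, _⟩
  rw [Submodule.mem_bot]
  funext F
  have := h1 F
  rw [secM, if_neg (by omega), Submodule.mem_bot] at this
  exact this

theorem chM_eq (p : ℕ) (m : ℤ) (hm : 0 ≤ m) : chM 3 3 p m = chains 2 3 p (m + 1) := by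
  have e : (3 : ℤ) + m * (3 : ℕ) = (m + 1) * (3 : ℕ) := by
    push_cast
    ring
  ext f
  change ((∀ F, f F ∈ secM 3 3 m) ∧ ∀ F, F.card ≠ p → f F = 0) ↔
    ((∀ F, f F ∈ Sec 2 ((m + 1) * (3 : ℕ))) ∧ ∀ F, F.card ≠ p → f F = 0)
  rw [secM, if_pos hm, e]

theorem betti_neg (i : ℕ) (j : ℤ) (hj : j < i) : betti 3 3 i j = 0 := by
  rw [betti, chM_neg 3 3 i (j - i) (by omega), bot_inf_eq, dimQ]
  exact Module.finrank_zero_of_subsingleton

theorem betti_zero (i : ℕ) : betti 3 3 i (i : ℤ) = finrank ℂ (cyc 2 3 i 1) := by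
  have e1 : chM 3 3 i ((i : ℤ) - i) ⊓ LinearMap.ker (kosz 2 3) = cyc 2 3 i 1 := by
    rw [sub_self, chM_eq i 0 le_rfl, zero_add]
    rfl
  have e2 : (chM 3 3 (i + 1) ((i : ℤ) - i - 1)).map (kosz 2 3) = ⊥ := by
    rw [chM_neg 3 3 _ _ (by omega), Submodule.map_bot]
  rw [betti, e1, e2, dimQ]
  have := cyc_finite 2 3 i 1
  have h := Submodule.finrank_quotient_add_finrank
    ((⊥ : Submodule ℂ (Finset (Fin (h0 2 3)) → Poly 2)).submoduleOf (cyc 2 3 i 1))
  have e3 : finrank ℂ ((⊥ : Submodule ℂ (Finset (Fin (h0 2 3)) → Poly 2)).submoduleOf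
      (cyc 2 3 i 1)) = 0 := by
    rw [← Submodule.finrank_map_subtype_eq, Submodule.submoduleOf, Submodule.map_comap_subtype,
      inf_bot_eq, finrank_bot]
  omega

theorem betti_pos (i : ℕ) (j : ℤ) (hj : (i : ℤ) < j) :
    betti 3 3 i j = kpq 2 3 i (j - i + 1) := by
  have e1 : chM 3 3 i (j - i) ⊓ LinearMap.ker (kosz 2 3) = cyc 2 3 i (j - i + 1) := by
    rw [chM_eq i _ (by omega)]
    rfl
  have e2 : (chM 3 3 (i + 1) (j - i - 1)).map (kosz 2 3) = bdy 2 3 i (j - i + 1) := by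
    rw [chM_eq (i + 1) _ (by omega), bdy, sub_add_cancel, add_sub_cancel_right]
  rw [betti, e1, e2]
  rfl

theorem cyc_big (i : ℕ) (hi : 10 ≤ i) : finrank ℂ (cyc 2 3 i 1) = 0 := by
  rcases Nat.lt_or_ge 10 i with h | h
  · have := chains_finite 2 3 i 1
    have h1 : finrank ℂ (cyc 2 3 i 1) ≤ finrank ℂ (chains 2 3 i 1) :=
      Submodule.finrank_mono inf_le_left
    have h2 : (h0 2 3).choose i = 0 := Nat.choose_eq_zero_of_lt (by rw [h0_23]; exact h)
    rw [finrank_chains, h2, zero_mul] at h1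
    omega
  · have h10 : i = 10 := by omega
    subst h10
    have := cyc_one 10
    rw [if_neg (by norm_num), add_zero] at this
    have hW : W 10 1 = 0 := by decide
    rw [hW] at this
    exact_mod_cast this

/-- the linear strand -/
def lin (i : ℕ) : ℕ := [10, 72, 225, 399, 441, 315, 147, 45, 10, 1].getD i 0

theorem cyc_lin (i : ℕ) : finrank ℂ (cyc 2 3 i 1) = lin i := by
  rcases Nat.lt_or_ge i 10 with h | h
  · have := cyc_one i
    have h2 : W i 1 + (if i = 8 then 1 else 0) = (lin i : ℤ) := by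
      interval_cases i <;> decide
    rw [h2] at this
    exact_mod_cast this
  · rw [cyc_big i h, lin, List.getD_eq_default _ _ (by simpa using h)]

theorem betti_table (i : ℕ) (j : ℤ) :
    betti 3 3 i j = if j = i then lin i else if i = 7 ∧ j = 8 then 1 else 0 := by
  rcases lt_trichotomy j i with h | h | h
  · rw [if_neg h.ne, betti_neg i j h, if_neg]
    rintro ⟨rfl, rfl⟩
    norm_num at h
  · subst h
    rw [if_pos rfl, betti_zero, cyc_lin]
  · rw [if_neg h.ne', betti_pos i j h]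
    rcases eq_or_ne j (i + 1) with h1 | h1
    · subst h1
      have e : ((i : ℤ) + 1 - i + 1) = 2 := by ring
      rw [e, kpq_two]
      by_cases h7 : i = 7
      · subst h7
        norm_num
      · rw [if_neg h7, if_neg (fun h => h7 h.1)]
    · rw [kpq_ge _ _ (by omega), if_neg]
      rintro ⟨rfl, rfl⟩
      norm_num at h1

end Pool.Agent.N92.BS
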