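import Pool.Agent.N92.BS.Betti

/-! # The Boij-Söderberg decomposition for `b = d = 3` -/

set_option autoImplicit false

namespace Pool.Agent.N92.BS

open Finset

/-- the degree sequences -/
def L9 : List ℤ := [0, 1, 2, 3, 4, 5, 6, 7, 8, 9]
def L8 : List ℤ := [0, 1, 2, 3, 4, 5, 6, 7, 8]
def L7 : List ℤ := [0, 1, 2, 3, 4, 5, 6, 7]
def LX : List ℤ := [0, 1, 2, 3, 4, 5, 6, 8]

def D4 : Fin 4 → List ℤ := ![L9, L8, L7, LX]
def a4 : Fin 4 → ℚ := ![362880, 40320, 5040, 40320]

theorem entry_nonneg (l : List ℤ) (i : ℕ) (j : ℤ) : 0 ≤ pureD l i j := by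
  rw [pureD]
  split_ifs
  · refine Finset.prod_nonneg fun k _ => ?_
    split_ifs
    · exact zero_le_one
    · positivity
  · exact le_rfl

theorem entry_pos {l : List ℤ} (hl : IsDegSeq l) {i : ℕ} (hi : i < l.length) :
    0 < pureD l i (l.getD i 0) := by
  rw [pureD, if_pos ⟨hi, rfl⟩]
  refine Finset.prod_pos fun k hk => ?_
  rw [Finset.mem_range] at hk
  split_ifs with h
  · exact zero_lt_one
  · apply one_div_pos.2
    rw [abs_pos]
    have : l.getD k 0 - l.getD i 0 ≠ 0 := by
      rcases lt_or_gt_of_ne h with h | h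
      · have := hl.2 k i h hi
        omega
      · have := hl.2 i k h hk
        omega
    exact_mod_cast this

theorem supp_of {s : ℕ} {D : Fin s → List ℤ} {a : Fin s → ℚ} {β : ℕ → ℤ → ℕ} (h : IsBS β s D a)
    (t : Fin s) {i : ℕ} (hi : i < (D t).length) : β i ((D t).getD i 0) ≠ 0 := by
  intro h0
  have h1 := h.sum i ((D t).getD i 0)
  rw [h0, Nat.cast_zero] at h1
  have h2 : 0 < ∑ t', a t' * pureD (D t') i ((D t).getD i 0) := by
    refine lt_of_lt_of_le (mul_pos (h.pos t) (entry_pos (h.deg t) hi))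
      (Finset.single_le_sum (f := fun t' => a t' * pureD (D t') i ((D t).getD i 0))
        (fun t' _ => mul_nonneg (h.pos t').le (entry_nonneg _ _ _)) (Finset.mem_univ t))
  rw [← h1] at h2
  exact lt_irrefl _ h2

/-- the coefficient of a degree sequence -/
def co {s : ℕ} (D : Fin s → List ℤ) (a : Fin s → ℚ) (l : List ℤ) : ℚ :=
  ∑ t, if D t = l then a t else 0

theorem sum_co {s : ℕ} (D : Fin s → List ℤ) (a : Fin s → ℚ) (g : List ℤ → ℚ)
    (S : Finset (List ℤ)) (hS : ∀ t, g (D t) ≠ 0 → D t ∈ S) :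
    ∑ t, a t * g (D t) = ∑ l ∈ S, co D a l * g l := by
  have h1 : ∑ l ∈ S, co D a l * g l = ∑ t, ∑ l ∈ S, if D t = l then a t * g l else 0 := by
    rw [Finset.sum_comm]
    refine Finset.sum_congr rfl fun l _ => ?_
    rw [co, Finset.sum_mul]
    exact Finset.sum_congr rfl fun t _ => by rw [ite_mul, zero_mul]
  rw [h1]
  refine Finset.sum_congr rfl fun t _ => ?_
  rw [Finset.sum_ite_eq]
  split_ifs with h
  · rfl
  · have : g (D t) = 0 := by
      by_contra hc
      exact h (hS t hc)
    rw [this, mul_zero]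

theorem co_eq {s : ℕ} {D : Fin s → List ℤ} {a : Fin s → ℚ} {β : ℕ → ℤ → ℕ} (h : IsBS β s D a)
    {l : List ℤ} (hl : co D a l ≠ 0) : ∃ t, D t = l ∧ a t = co D a l := by
  obtain ⟨t, _, ht⟩ := Finset.exists_ne_zero_of_sum_ne_zero hl
  have hDt : D t = l := by
    by_contra hc
    rw [if_neg hc] at ht
    exact ht rfl
  refine ⟨t, hDt, ?_⟩
  rw [co, Finset.sum_eq_single t]
  · rw [if_pos hDt]
  · intro t' _ hne
    rw [if_neg]
    intro h'
    rcases lt_or_gt_of_ne hne with hlt | hlt
    · exact (h.chain t' t hlt).2 (h'.trans hDt.symm)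
    · exact (h.chain t t' hlt).2 (hDt.trans h'.symm)
  · intro h'
    exact absurd (Finset.mem_univ t) h'

theorem lin_zero {i : ℕ} (h : 10 ≤ i) : lin i = 0 := by
  rw [lin, List.getD_eq_default _ _ (by simpa using h)]

theorem betti_supp {i : ℕ} {j : ℤ} (h : betti 3 3 i j ≠ 0) :
    i < 10 ∧ (j = i ∨ (i = 7 ∧ j = 8)) := by
  rw [betti_table] at h
  by_cases h1 : j = i
  · rw [if_pos h1] at h
    refine ⟨?_, Or.inl h1⟩
    by_contra hc
    exact h (lin_zero (by omega))
  · rw [if_neg h1] at h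
    by_cases h2 : i = 7 ∧ j = 8
    · exact ⟨by omega, Or.inr h2⟩
    · rw [if_neg h2] at h
      exact absurd rfl h

/-- the structure of the degree sequences which can occur -/
structure Occ (l : List ℤ) : Prop where
  deg : IsDegSeq l
  len : l.length ≤ 10
  ent : ∀ i < l.length, l.getD i 0 = i ∨ (i = 7 ∧ l.getD i 0 = 8)

theorem occ {s : ℕ} {D : Fin s → List ℤ} {a : Fin s → ℚ}
    (h : IsBS (betti 3 3) s D a) (t : Fin s) : Occ (D t) := by
  refine ⟨h.deg t, ?_, fun i hi => (betti_supp (supp_of h t hi)).2⟩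
  by_contra hc
  push Not at hc
  have := (betti_supp (supp_of h t hc)).1
  omega

theorem Occ.seven {l : List ℤ} (h : Occ l) (h8 : 8 < l.length) : l.getD 7 0 = 7 := by
  have h1 := h.deg.2 7 8 (by norm_num) h8
  have h2 : l.getD 8 0 = 8 := by
    rcases h.ent 8 h8 with h | ⟨h, _⟩
    · exact_mod_cast h
    · omega
  rcases h.ent 7 (by omega) with h | ⟨_, h⟩
  · exact_mod_cast h
  · omega

theorem list_ext {l l' : List ℤ} (h : l.length = l'.length)
    (h' : ∀ i < l.length, l.getD i 0 = l'.getD i 0) : l = l' := by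
  refine List.ext_getElem h fun i h1 h2 => ?_
  have := h' i h1
  rwa [List.getD_eq_getElem _ _ h1, List.getD_eq_getElem _ _ h2] at this

theorem Occ.eq {l l' : List ℤ} (h : Occ l) (hlen : l.length = l'.length)
    (h7 : l.getD 7 0 = l'.getD 7 0) (h' : ∀ i < l'.length, i ≠ 7 → l'.getD i 0 = i) : l = l' := by
  refine list_ext hlen fun i hi => ?_
  by_cases h7' : i = 7
  · subst h7'
    exact h7
  · rw [h' i (by omega) h7']
    rcases h.ent i hi with h | ⟨h, _⟩
    · exact h
    · exact absurd h h7'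

theorem ent9 : ∀ i < L9.length, i ≠ 7 → L9.getD i 0 = i := by decide
theorem ent8 : ∀ i < L8.length, i ≠ 7 → L8.getD i 0 = i := by decide
theorem ent7 : ∀ i < L7.length, i ≠ 7 → L7.getD i 0 = i := by decide
theorem entX : ∀ i < LX.length, i ≠ 7 → LX.getD i 0 = i := by decide

theorem entry_ne {l : List ℤ} {i : ℕ} {j : ℤ} (h : pureD l i j ≠ 0) :
    i < l.length ∧ l.getD i 0 = j := by
  by_contra hc
  exact h (by rw [pureD, if_neg hc])

theorem case99 {l : List ℤ} (h : Occ l) (hne : pureD l 9 9 ≠ 0) : l ∈ ({L9} : Finset (List ℤ)) := by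
  have h1 := (entry_ne hne).1
  rw [Finset.mem_singleton]
  have h2 := h.len
  exact h.eq (by change _ = 10; omega) (by rw [h.seven (by omega)]; rfl) ent9

theorem case88 {l : List ℤ} (h : Occ l) (hne : pureD l 8 8 ≠ 0) :
    l ∈ ({L9, L8} : Finset (List ℤ)) := by
  have h1 := (entry_ne hne).1
  have h2 := h.len
  rw [Finset.mem_insert, Finset.mem_singleton]
  have h3 : l.length = 10 ∨ l.length = 9 := by omega
  rcases h3 with h3 | h3
  · left
    exact h.eq (by change _ = 10; omega) (by rw [h.seven (by omega)]; rfl) ent9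
  · right
    exact h.eq (by change _ = 9; omega) (by rw [h.seven (by omega)]; rfl) ent8

theorem case77 {l : List ℤ} (h : Occ l) (hne : pureD l 7 7 ≠ 0) :
    l ∈ ({L9, L8, L7} : Finset (List ℤ)) := by
  obtain ⟨h1, h7⟩ := entry_ne hne
  have h2 := h.len
  rw [Finset.mem_insert, Finset.mem_insert, Finset.mem_singleton]
  have h3 : l.length = 10 ∨ l.length = 9 ∨ l.length = 8 := by omega
  rcases h3 with h3 | h3 | h3
  · left
    exact h.eq (by change _ = 10; omega) (by rw [h7]; rfl) ent9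
  · right; left
    exact h.eq (by change _ = 9; omega) (by rw [h7]; rfl) ent8
  · right; right
    exact h.eq (by change _ = 8; omega) (by rw [h7]; rfl) ent7

theorem case78 {l : List ℤ} (h : Occ l) (hne : pureD l 7 8 ≠ 0) :
    l ∈ ({LX} : Finset (List ℤ)) := by
  obtain ⟨h1, h7⟩ := entry_ne hne
  rw [Finset.mem_singleton]
  have h3 : l.length = 8 := by
    by_contra hc
    have := h.seven (by omega)
    omega
  exact h.eq (by change _ = 8; omega) (by rw [h7]; rfl) entX

theorem v99 : pureD L9 9 9 = 1 / 362880 := by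
  rw [pureD, if_pos (by decide)]
  norm_num [L9, Finset.prod_range_succ]

theorem v98 : pureD L9 8 8 = 1 / 40320 := by
  rw [pureD, if_pos (by decide)]
  norm_num [L9, Finset.prod_range_succ]

theorem v88 : pureD L8 8 8 = 1 / 40320 := by
  rw [pureD, if_pos (by decide)]
  norm_num [L8, Finset.prod_range_succ]

theorem v97 : pureD L9 7 7 = 1 / 10080 := by
  rw [pureD, if_pos (by decide)]
  norm_num [L9, Finset.prod_range_succ]

theorem v87 : pureD L8 7 7 = 1 / 5040 := by
  rw [pureD, if_pos (by decide)]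
  norm_num [L8, Finset.prod_range_succ]

theorem v77 : pureD L7 7 7 = 1 / 5040 := by
  rw [pureD, if_pos (by decide)]
  norm_num [L7, Finset.prod_range_succ]

theorem vX : pureD LX 7 8 = 1 / 40320 := by
  rw [pureD, if_pos (by decide)]
  norm_num [LX, Finset.prod_range_succ]

/-- the coefficients of any decomposition -/
theorem coefs {s : ℕ} {D : Fin s → List ℤ} {a : Fin s → ℚ} (h : IsBS (betti 3 3) s D a) :
    co D a L9 = 362880 ∧ co D a L8 = 40320 ∧ co D a L7 = 5040 ∧ co D a LX = 40320 := by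
  have b99 : betti 3 3 9 9 = 1 := by
    rw [betti_table, if_pos (by norm_num)]
    rfl
  have b88 : betti 3 3 8 8 = 10 := by
    rw [betti_table, if_pos (by norm_num)]
    rfl
  have b77 : betti 3 3 7 7 = 45 := by
    rw [betti_table, if_pos (by norm_num)]
    rfl
  have b78 : betti 3 3 7 8 = 1 := by
    rw [betti_table, if_neg (by norm_num), if_pos (by norm_num)]
  have e1 := h.sum 9 9
  rw [sum_co D a (fun l => pureD l 9 9) {L9} (fun t ht => case99 (occ h t) ht), b99,
    Finset.sum_singleton, v99] at e1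
  have e2 := h.sum 8 8
  rw [sum_co D a (fun l => pureD l 8 8) {L9, L8} (fun t ht => case88 (occ h t) ht), b88,
    Finset.sum_pair (by decide), v98, v88] at e2
  have e3 := h.sum 7 7
  rw [sum_co D a (fun l => pureD l 7 7) {L9, L8, L7} (fun t ht => case77 (occ h t) ht), b77,
    Finset.sum_insert (by decide), Finset.sum_pair (by decide), v97, v87, v77] at e3
  have e4 := h.sum 7 8
  rw [sum_co D a (fun l => pureD l 7 8) {LX} (fun t ht => case78 (occ h t) ht), b78,
    Finset.sum_singleton, vX] at e4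
  push_cast at e1 e2 e3 e4
  refine ⟨by linarith, by linarith, by linarith, by linarith⟩

theorem not_uni {s : ℕ} {D : Fin s → List ℤ} {a : Fin s → ℚ} (h : IsBS (betti 3 3) s D a) :
    ∃ s₁ s₂ s₃ : Fin s, s₁ < s₂ ∧ s₂ < s₃ ∧ a s₁ = 362880 ∧ a s₂ = 5040 ∧ a s₃ = 40320 := by
  obtain ⟨c9, -, c7, cX⟩ := coefs h
  obtain ⟨t1, ht1, a1⟩ := co_eq h (l := L9) (by rw [c9]; norm_num)
  obtain ⟨t2, ht2, a2⟩ := co_eq h (l := L7) (by rw [c7]; norm_num)
  obtain ⟨t3, ht3, a3⟩ := co_eq h (l := LX) (by rw [cX]; norm_num)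
  refine ⟨t1, t2, t3, ?_, ?_, a1.trans c9, a2.trans c7, a3.trans cX⟩
  · by_contra hc
    rcases lt_or_eq_of_le (not_lt.1 hc) with hlt | heq
    · have := (h.chain t2 t1 hlt).1.1
      rw [ht1, ht2] at this
      exact absurd this (by decide)
    · rw [heq, ht1] at ht2
      exact absurd ht2 (by decide)
  · by_contra hc
    rcases lt_or_eq_of_le (not_lt.1 hc) with hlt | heq
    · have := (h.chain t3 t2 hlt).1.2 7
      rw [ht2, ht3] at this
      exact absurd (this (by decide)) (by decide)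
    · rw [heq, ht2] at ht3
      exact absurd ht3 (by decide)

end Pool.Agent.N92.BS
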