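import Pool.Agent.W474.Ver.Interior
import Pool.Agent.W474.Ver.Sanity

/-! # Dimensions of the Koszul cycles of the cubic Veronese surface -/

set_option autoImplicit false

namespace Pool.Agent.N92.BS

open MvPolynomial Finset Module
open Pool.Agent.W474.Ver

theorem h0_choose (n d : ℕ) : h0 n d = (d + n).choose n := by
  have e : Mon n d ≃ {a // a ∈ Finset.finsuppAntidiag (Finset.univ : Finset (Fin (n + 1))) d} :=
    Equiv.subtypeEquivRight (fun u => by
      rw [Finset.mem_finsuppAntidiag]
      exact ⟨fun h => ⟨h, Finset.subset_univ _⟩, fun h => h.1⟩)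
  rw [h0, Nat.card_congr e, Nat.card_eq_fintype_card, Fintype.card_coe,
    Finset.card_finsuppAntidiag_nat_eq_choose, Finset.card_univ, Fintype.card_fin]
  have e1 : n + 1 + d - 1 = d + n := by omega
  rw [e1, Nat.choose_symm_add]

theorem finrank_Sec (n e : ℕ) : finrank ℂ (Sec n (e : ℤ)) = (e + n).choose n := by
  classical
  have : Fintype (Mon n e) := Fintype.ofFinite _
  have hs : ∀ (f : Sec n (e : ℤ)) (u : Fin (n + 1) →₀ ℕ), coeff u f.1 ≠ 0 → ∑ a, u a = e := by
    intro f u hu
    have := f.2 u hu
    exact_mod_cast this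
  let Φ : Sec n (e : ℤ) →ₗ[ℂ] (Mon n e → ℂ) :=
    { toFun := fun f u => coeff u.1 f.1
      map_add' := fun f g => by
        funext u
        simp
      map_smul' := fun c f => by
        funext u
        simp }
  have hinj : Function.Injective Φ := by
    intro f g h
    apply Subtype.ext
    ext u
    by_cases hu : ∑ a, u a = e
    · exact congrFun h ⟨u, hu⟩
    · have h1 : coeff u f.1 = 0 := by
        by_contra hc
        exact hu (hs f u hc)
      have h2 : coeff u g.1 = 0 := by
        by_contra hc
        exact hu (hs g u hc)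
      rw [h1, h2]
  have hc : ∀ (g : Mon n e → ℂ) (v : Fin (n + 1) →₀ ℕ),
      coeff v (∑ u : Mon n e, monomial u.1 (g u)) = ∑ u : Mon n e, if u.1 = v then g u else 0 := by
    intro g v
    rw [coeff_sum]
    exact Finset.sum_congr rfl fun u _ => by rw [coeff_monomial]
  have hsurj : Function.Surjective Φ := by
    intro g
    refine ⟨⟨∑ u : Mon n e, monomial u.1 (g u), ?_⟩, ?_⟩
    · intro v hv
      rw [hc] at hv
      obtain ⟨u, _, hu⟩ := Finset.exists_ne_zero_of_sum_ne_zero hv
      by_cases huv : u.1 = v
      · rw [← huv]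
        exact_mod_cast u.2
      · rw [if_neg huv] at hu
        exact absurd rfl hu
    · funext v
      change coeff v.1 (∑ u : Mon n e, monomial u.1 (g u)) = g v
      rw [hc, Finset.sum_eq_single v]
      · rw [if_pos rfl]
      · intro u _ huv
        rw [if_neg (fun h => huv (Subtype.ext h))]
      · intro h
        exact absurd (Finset.mem_univ v) h
  rw [(LinearEquiv.ofBijective Φ ⟨hinj, hsurj⟩).finrank_eq, Module.finrank_fintype_fun_eq_card,
    ← Nat.card_eq_fintype_card]
  exact h0_choose n e

theorem finrank_chains (n d p : ℕ) (m : ℤ) :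
    finrank ℂ (chains n d p m) = (h0 n d).choose p * finrank ℂ (Sec n (m * d)) := by
  classical
  have := Sec_finite n (m * d)
  let Φ : chains n d p m →ₗ[ℂ] ({F : Finset (Fin (h0 n d)) // F.card = p} → Sec n (m * d)) :=
    { toFun := fun f F => ⟨f.1 F.1, f.2.1 F.1⟩
      map_add' := fun f g => rfl
      map_smul' := fun c f => rfl }
  have hinj : Function.Injective Φ := by
    intro f g h
    apply Subtype.ext
    funext F
    by_cases hF : F.card = p
    · exact congrArg Subtype.val (congrFun h ⟨F, hF⟩)
    · rw [f.2.2 F hF, g.2.2 F hF]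
  have hsurj : Function.Surjective Φ := by
    intro g
    refine ⟨⟨fun F => if h : F.card = p then (g ⟨F, h⟩).1 else 0, ?_, ?_⟩, ?_⟩
    · intro F
      beta_reduce
      by_cases h : F.card = p
      · rw [dif_pos h]
        exact (g ⟨F, h⟩).2
      · rw [dif_neg h]
        exact Submodule.zero_mem _
    · intro F hF
      exact dif_neg hF
    · funext F
      apply Subtype.ext
      change (if h : F.1.card = p then (g ⟨F.1, h⟩).1 else 0) = (g F).1
      rw [dif_pos F.2]
  rw [(LinearEquiv.ofBijective Φ ⟨hinj, hsurj⟩).finrank_eq, Module.finrank_pi_fintype,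
    Finset.sum_const, Finset.card_univ, Fintype.card_finset_len, Fintype.card_fin, smul_eq_mul]

theorem rank_nullity (n d p : ℕ) (m : ℤ) :
    finrank ℂ (bdy n d p (m + 1)) + finrank ℂ (cyc n d (p + 1) m) =
      finrank ℂ (chains n d (p + 1) m) := by
  have := chains_finite n d (p + 1) m
  have h := LinearMap.finrank_range_add_finrank_ker ((kosz n d).domRestrict (chains n d (p + 1) m))
  rw [LinearMap.range_domRestrict, LinearMap.ker_domRestrict] at h
  have e1 : bdy n d p (m + 1) = (chains n d (p + 1) m).map (kosz n d) := by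
    rw [bdy, add_sub_cancel_right]
  have e2 : finrank ℂ ((LinearMap.ker (kosz n d)).submoduleOf (chains n d (p + 1) m)) =
      finrank ℂ (cyc n d (p + 1) m) := by
    rw [← Submodule.finrank_map_subtype_eq, Submodule.submoduleOf, Submodule.map_comap_subtype]
    rfl
  rw [← e2, e1]
  exact h

theorem kpq_add (n d p : ℕ) (q : ℤ) :
    kpq n d p q + finrank ℂ (bdy n d p q) = finrank ℂ (cyc n d p q) := by
  have := cyc_finite n d p q
  have h := Submodule.finrank_quotient_add_finrank ((bdy n d p q).submoduleOf (cyc n d p q))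
  have e2 : finrank ℂ ((bdy n d p q).submoduleOf (cyc n d p q)) = finrank ℂ (bdy n d p q) := by
    rw [← Submodule.finrank_map_subtype_eq, Submodule.submoduleOf, Submodule.map_comap_subtype,
      inf_eq_right.2 (bdy_le_cyc n d p q)]
  rw [e2] at h
  exact h

theorem cyc_zero (n d : ℕ) (q : ℤ) : cyc n d 0 q = chains n d 0 q := by
  refine le_antisymm inf_le_left fun f hf => ⟨hf, ?_⟩
  rw [SetLike.mem_coe, LinearMap.mem_ker]
  funext G
  change ∑ b ∈ Gᶜ, (-1) ^ (G.filter (fun c => c < b)).card * bas n d b * f (insert b G) = 0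
  refine Finset.sum_eq_zero fun b hb => ?_
  rw [hf.2 _ (by rw [Finset.card_insert_of_notMem (Finset.mem_compl.1 hb)]; omega), mul_zero]

/-- the recursion for the dimensions of the spaces of cycles -/
theorem cyc_succ (n d p : ℕ) (m : ℤ) :
    (finrank ℂ (cyc n d (p + 1) m) : ℤ) = (h0 n d).choose (p + 1) * finrank ℂ (Sec n (m * d)) -
      finrank ℂ (cyc n d p (m + 1)) + kpq n d p (m + 1) := by
  have h1 := rank_nullity n d p m
  have h2 := kpq_add n d p (m + 1)
  rw [finrank_chains] at h1
  have h1' : (finrank ℂ (bdy n d p (m + 1)) : ℤ) + finrank ℂ (cyc n d (p + 1) m) =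
      (h0 n d).choose (p + 1) * finrank ℂ (Sec n (m * d)) := by exact_mod_cast h1
  have h2' : (kpq n d p (m + 1) : ℤ) + finrank ℂ (bdy n d p (m + 1)) =
      finrank ℂ (cyc n d p (m + 1)) := by exact_mod_cast h2
  linarith

end Pool.Agent.N92.BS
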