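import Pool.Agent.N92.BS.Dec

/-! # The decomposition exists -/

set_option autoImplicit false

namespace Pool.Agent.N92.BS

open Finset

theorem deg_of (l : List ℤ) (h : 0 < l.length)
    (h' : ∀ j < l.length, ∀ i < j, l.getD i 0 < l.getD j 0) : IsDegSeq l :=
  ⟨h, fun i j hij hj => h' j hj i hij⟩

theorem deg4 (t : Fin 4) : IsDegSeq (D4 t) := by
  fin_cases t
  · exact deg_of L9 (by decide) (by decide)
  · exact deg_of L8 (by decide) (by decide)
  · exact deg_of L7 (by decide) (by decide)
  · exact deg_of LX (by decide) (by decide)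

theorem chain4 (t t' : Fin 4) (h : t < t') : LeD (D4 t) (D4 t') ∧ D4 t ≠ D4 t' := by
  fin_cases t <;> fin_cases t' <;> first
    | exact absurd h (by decide)
    | exact ⟨⟨by decide, by decide⟩, by decide⟩

theorem pos4 (t : Fin 4) : 0 < a4 t := by
  fin_cases t <;> simp [a4]

theorem entry_ge {l : List ℤ} {i : ℕ} {j : ℤ} (h : l.length ≤ i) : pureD l i j = 0 := by
  rw [pureD, if_neg]
  rintro ⟨h1, _⟩
  omega

theorem sum4 (i : ℕ) (j : ℤ) : (betti 3 3 i j : ℚ) = ∑ t, a4 t * pureD (D4 t) i j := by
  have e : ∑ t, a4 t * pureD (D4 t) i j = 362880 * pureD L9 i j + 40320 * pureD L8 i j +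
      5040 * pureD L7 i j + 40320 * pureD LX i j := by
    rw [Fin.sum_univ_four]
    rfl
  rw [e, betti_table]
  rcases Nat.lt_or_ge i 10 with hi | hi
  · by_cases hj : j = i
    · rw [if_pos hj]
      subst hj
      interval_cases i <;>
        norm_num [pureD, lin, L9, L8, L7, LX, Finset.prod_range_succ]
    · rw [if_neg hj]
      by_cases h2 : i = 7 ∧ j = 8
      · obtain ⟨rfl, rfl⟩ := h2
        norm_num [pureD, L9, L8, L7, LX, Finset.prod_range_succ]
      · rw [if_neg h2]
        have h9 : pureD L9 i j = 0 := by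
          rw [pureD, if_neg]
          rintro ⟨_, h⟩
          apply hj
          rw [← h]
          interval_cases i <;> rfl
        have h8 : pureD L8 i j = 0 := by
          rw [pureD, if_neg]
          rintro ⟨h0, h⟩
          have h0' : i < 9 := h0
          apply hj
          rw [← h]
          interval_cases i <;> rfl
        have h7 : pureD L7 i j = 0 := by
          rw [pureD, if_neg]
          rintro ⟨h0, h⟩
          have h0' : i < 8 := h0
          apply hj
          rw [← h]
          interval_cases i <;> rfl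
        have hX : pureD LX i j = 0 := by
          rw [pureD, if_neg]
          rintro ⟨h0, h⟩
          have h0' : i < 8 := h0
          by_cases h77 : i = 7
          · subst h77
            exact h2 ⟨rfl, h.symm⟩
          · apply hj
            rw [← h]
            interval_cases i <;> first
              | rfl
              | exact absurd rfl h77
        rw [h9, h8, h7, hX]
        norm_num
  · rw [entry_ge (l := L9) hi, entry_ge (l := L8) (by change 9 ≤ i; omega),
      entry_ge (l := L7) (by change 8 ≤ i; omega), entry_ge (l := LX) (by change 8 ≤ i; omega)]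
    have h2 : ¬ (i = 7 ∧ j = 8) := by omega
    rw [lin_zero hi, if_neg h2]
    simp

theorem isBS4 : IsBS (betti 3 3) 4 D4 a4 := ⟨deg4, chain4, pos4, sum4⟩

theorem not_unimodal_of {s : ℕ} {a : Fin s → ℚ} {s₁ s₂ s₃ : Fin s} (h12 : s₁ < s₂) (h23 : s₂ < s₃)
    (h1 : a s₂ < a s₁) (h3 : a s₂ < a s₃) : ¬ Unimodal a := by
  rintro ⟨t, ht⟩
  rcases le_total (s₂ : ℕ) t with h | h
  · exact absurd ((ht s₁ s₂ h12.le).1 h) (not_le.2 h1)
  · exact absurd ((ht s₂ s₃ h23.le).2 h) (not_le.2 h3)

end Pool.Agent.N92.BS
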