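import Pool.Agent.N92.BS.Dim

/-! # Koszul cohomology of the cubic Veronese surface -/

set_option autoImplicit false

namespace Pool.Agent.N92.BS

open MvPolynomial Finset Module
open Pool.Agent.W474.Ver
open Pool.Agent.H940R2 (CC ZZ BB HH DK dg)

theorem h0_23 : h0 2 3 = 10 := by
  rw [h0_choose]
  rfl

/-- the homology of the region `Sout` vanishes in a degree without cells -/
theorem hh_zero (n d p : ℕ) (q : ℤ)
    (h : ∀ x : Finset (Fin (h0 n d)) × Lat n, x ∈ Sout (Fin (h0 n d)) n (d : ℤ) (p + q) →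
      dg x ≠ p + (n + 1)) : kpq n d p q = 0 := by
  rw [kpq_eq]
  have hz : ∀ f : ZZ dg (DK ℂ (exd n d)) (Sout (Fin (h0 n d)) n (d : ℤ) (p + q)) (p + (n + 1)),
      f = 0 := by
    rintro ⟨f, hf⟩
    apply Subtype.ext
    funext x
    by_contra hx
    obtain ⟨h1, h2⟩ := hf.1 x hx
    exact h x h1 h2
  have : Subsingleton (ZZ dg (DK ℂ (exd n d)) (Sout (Fin (h0 n d)) n (d : ℤ) (p + q))
      (p + (n + 1))) := ⟨fun a b => by rw [hz a, hz b]⟩
  exact Module.finrank_zero_of_subsingleton

theorem kpq_ge (p : ℕ) (q : ℤ) (hq : 3 ≤ q) : kpq 2 3 p q = 0 := by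
  apply hh_zero
  rintro ⟨F, u⟩ ⟨h1, h2⟩ h3
  simp only [Base, Set.mem_ofPred_eq] at h1 h2
  have h4 : F.card = p + (2 + 1) := h3
  rw [h4, Fin.sum_univ_three] at h1
  have a0 := h2 0
  have a1 := h2 1
  have a2 := h2 2
  push_cast at h1
  omega

theorem kpq_large (p : ℕ) (q : ℤ) (hp : 8 ≤ p) : kpq 2 3 p q = 0 := by
  apply hh_zero
  rintro ⟨F, u⟩ _ h3
  have h4 : F.card = p + (2 + 1) := h3
  have h5 := Finset.card_le_univ F
  have h6 := h0_23
  simp only [Fintype.card_fin] at h5
  omega

/-- the exponent vector of `x y z` -/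
noncomputable def one3 : Fin 3 →₀ ℕ := Finsupp.equivFunOnFinite.symm (fun _ => 1)

theorem mem_M0 {f : Poly 2} (hf : f ∈ M0 2 3) {u : Fin 3 →₀ ℕ} (hu : u ≠ one3) :
    coeff u f = 0 := by
  by_contra hc
  obtain ⟨h1, h2⟩ := hf u hc
  apply hu
  rw [Fin.sum_univ_three] at h1
  have a0 := h2 0
  have a1 := h2 1
  have a2 := h2 2
  ext i
  change u i = 1
  fin_cases i
  · change u 0 = 1
    omega
  · change u 1 = 1
    omega
  · change u 2 = 1
    omega

theorem KK_bot (p : ℕ) : KK 2 3 (p + 1) = ⊥ := by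
  rw [eq_bot_iff]
  rintro f ⟨h1, h2, h3⟩
  rw [Submodule.mem_bot]
  funext B
  by_cases hB : B.card = p + 1
  · obtain ⟨b, hb⟩ : B.Nonempty := by
      rw [← Finset.card_pos]
      omega
    have h4 : coeff (one3 + (mon 2 3 b).1) (kosz 2 3 f (B.erase b)) = 0 := by
      rw [h3]
      rfl
    rw [coeff_kosz, Finset.sum_eq_single b] at h4
    · rw [if_pos le_add_self, add_tsub_cancel_right, Finset.insert_erase hb] at h4
      have h5 : coeff one3 (f B) = 0 := by
        rcases mul_eq_zero.1 h4 with h | h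
        · exact absurd h (pow_ne_zero _ (by norm_num))
        · exact h
      ext u
      by_cases hu : u = one3
      · rw [hu, h5]
        rfl
      · rw [mem_M0 (h1 B) hu]
        rfl
    · intro c _ hcb
      by_cases hle : (mon 2 3 c).1 ≤ one3 + (mon 2 3 b).1
      · rw [if_pos hle, mem_M0 (h1 _), mul_zero]
        intro h
        apply hcb
        have h6 : one3 + (mon 2 3 b).1 = one3 + (mon 2 3 b).1 - (mon 2 3 c).1 + (mon 2 3 c).1 :=
          (tsub_add_cancel_of_le hle).symm
        rw [h] at h6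
        exact ((mon 2 3).injective (Subtype.ext (add_left_cancel h6))).symm
      · rw [if_neg hle, mul_zero]
    · intro h
      exact absurd (Finset.mem_compl.2 (Finset.notMem_erase b B)) h
  · exact h2 B hB

theorem KK_zero : finrank ℂ (KK 2 3 0) = 1 := by
  classical
  let Φ : KK 2 3 0 →ₗ[ℂ] ℂ :=
    { toFun := fun f => coeff one3 (f.1 ∅)
      map_add' := fun f g => by simp
      map_smul' := fun c f => by simp }
  have hinj : Function.Injective Φ := by
    intro f g h
    apply Subtype.ext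
    funext B
    by_cases hB : B.card = 0
    · rw [Finset.card_eq_zero] at hB
      subst hB
      ext u
      by_cases hu : u = one3
      · rw [hu]
        exact h
      · rw [mem_M0 (f.2.1 _) hu, mem_M0 (g.2.1 _) hu]
    · rw [f.2.2.1 B hB, g.2.2.1 B hB]
  have hsurj : Function.Surjective Φ := by
    intro c
    refine ⟨⟨fun B => if B = ∅ then monomial one3 c else 0, ?_, ?_, ?_⟩, ?_⟩
    · intro B
      beta_reduce
      by_cases hB : B = ∅
      · rw [if_pos hB]
        intro u hu
        rw [coeff_monomial] at hu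
        by_cases h : one3 = u
        · subst h
          refine ⟨?_, fun _ => le_rfl⟩
          rw [Fin.sum_univ_three]
          rfl
        · rw [if_neg h] at hu
          exact absurd rfl hu
      · rw [if_neg hB]
        exact Submodule.zero_mem _
    · intro B hB
      beta_reduce
      rw [if_neg]
      rintro rfl
      exact hB Finset.card_empty
    · funext G
      rw [kosz_apply]
      refine Finset.sum_eq_zero fun b _ => ?_
      rw [if_neg (Finset.insert_ne_empty b G), mul_zero]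
    · change coeff one3 (if (∅ : Finset (Fin (h0 2 3))) = ∅ then monomial one3 c else 0) = c
      rw [if_pos rfl, coeff_monomial, if_pos rfl]
  rw [(LinearEquiv.ofBijective Φ ⟨hinj, hsurj⟩).finrank_eq, Module.finrank_self]

theorem kpq_two (p : ℕ) : kpq 2 3 p 2 = if p = 7 then 1 else 0 := by
  rcases lt_trichotomy p 7 with h | rfl | h
  · rw [if_neg h.ne]
    have h1 := kpq_eq_KK (n := 2) (d := 3) (p := p) (p' := (6 - p) + 1)
      (by rw [h0_23]; omega)
    have h2 : kpq 2 3 p 2 = finrank ℂ (KK 2 3 (6 - p + 1)) := h1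
    rw [h2, KK_bot, finrank_bot]
  · rw [if_pos rfl]
    have h1 := kpq_eq_KK (n := 2) (d := 3) (p := 7) (p' := 0) (by rw [h0_23])
    have h2 : kpq 2 3 7 2 = finrank ℂ (KK 2 3 0) := h1
    rw [h2, KK_zero]
  · rw [if_neg h.ne']
    exact kpq_large p 2 h

/-- the numbers given by the recursion -/
def W : ℕ → ℕ → ℤ
  | 0, m => (3 * m + 2).choose 2
  | p + 1, m => Nat.choose 10 (p + 1) * (3 * m + 2).choose 2 - W p (m + 1)

theorem finrank_Sec3 (m : ℕ) :
    finrank ℂ (Sec 2 ((m : ℤ) * (3 : ℕ))) = (3 * m + 2).choose 2 := by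
  have h : ((m : ℤ) * (3 : ℕ)) = ((3 * m : ℕ) : ℤ) := by
    push_cast
    ring
  rw [h, finrank_Sec]

theorem cyc_succ' (p : ℕ) (m : ℤ) :
    (finrank ℂ (cyc 2 3 (p + 1) m) : ℤ) = Nat.choose 10 (p + 1) *
      finrank ℂ (Sec 2 (m * (3 : ℕ))) - finrank ℂ (cyc 2 3 p (m + 1)) + kpq 2 3 p (m + 1) := by
  have h := cyc_succ 2 3 p m
  have e : (h0 2 3).choose (p + 1) = Nat.choose 10 (p + 1) :=
    congrArg (fun k => Nat.choose k (p + 1)) h0_23
  rw [e] at h
  exact h

theorem cyc_W (p : ℕ) : ∀ m : ℕ, 2 ≤ m → (finrank ℂ (cyc 2 3 p (m : ℤ)) : ℤ) = W p m := by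
  induction p with
  | zero =>
    intro m _
    rw [cyc_zero, finrank_chains, finrank_Sec3, Nat.choose_zero_right, one_mul, W]
  | succ p ih =>
    intro m hm
    have h1 := ih (m + 1) (by omega)
    push_cast at h1
    rw [cyc_succ', kpq_ge p _ (by omega), finrank_Sec3, h1, W]
    push_cast
    ring

theorem cyc_one (p : ℕ) : (finrank ℂ (cyc 2 3 p 1) : ℤ) = W p 1 + if p = 8 then 1 else 0 := by
  cases p with
  | zero =>
    have h := finrank_Sec3 1
    rw [Nat.cast_one] at h
    rw [cyc_zero, finrank_chains, h, Nat.choose_zero_right, one_mul, W]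
    simp
  | succ p =>
    have h1 := cyc_W p 2 le_rfl
    have h := finrank_Sec3 1
    rw [Nat.cast_one] at h
    rw [cyc_succ', h, W]
    have h2 : kpq 2 3 p (1 + 1) = if p = 7 then 1 else 0 := kpq_two p
    have h3 : (finrank ℂ (cyc 2 3 p (1 + 1)) : ℤ) = W p 2 := h1
    rw [h2, h3]
    by_cases h7 : p = 7
    · subst h7
      simp
    · rw [if_neg h7, if_neg (by omega)]
      push_cast
      ring

end Pool.Agent.N92.BS
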